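import Pool.Agent.Helper95.DG.Sub
import Pool.Agent.Helper55.SD.Grid

/-! # From the identity on a small grid to polynomials -/

open MvPolynomial Finset
open scoped BigOperators ENNReal

set_option linter.unusedSectionVars false

namespace Pool.DG

open Pool.SDL Pool.Agent.SDet

theorem map_perm {R S : Type*} [CommRing R] [CommRing S] (f : R →+* S) {n : Type*} [Fintype n]
    [DecidableEq n] (M : Matrix n n R) : f M.permanent = (M.map f).permanent := by
  simp [Matrix.permanent, map_sum, map_prod]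

variable {K : Type} [Field K]

theorem eval_affine_det {P : Type} [Fintype P] {m : ℕ} (A0 : Matrix (Fin m) (Fin m) K)
    (B : P → Matrix (Fin m) (Fin m) K) (w : P → K) :
    eval w ((A0.map (C : K → MvPolynomial P K) +
        ∑ e, (X e : MvPolynomial P K) • (B e).map (C : K → MvPolynomial P K)).det) =
      (A0 + ∑ e, w e • B e).det := by
  rw [RingHom.map_det]
  congr 1
  ext x y
  simp [Matrix.sum_apply]

theorem shift_affine_det {P : Type} [Fintype P] {m : ℕ} (A0 : Matrix (Fin m) (Fin m) K)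
    (B : P → Matrix (Fin m) (Fin m) K) :
    aeval (fun e => (X e + 1 : MvPolynomial P K)) ((A0.map (C : K → MvPolynomial P K) +
        ∑ e, (X e : MvPolynomial P K) • (B e).map (C : K → MvPolynomial P K)).det) =
      ((A0 + ∑ e, B e).map (C : K → MvPolynomial P K) +
        ∑ e, (X e : MvPolynomial P K) • (B e).map (C : K → MvPolynomial P K)).det := by
  rw [AlgHom.map_det]
  congr 1
  ext1 x y
  simp only [AlgHom.mapMatrix_apply, Matrix.map_apply, Matrix.add_apply, Matrix.sum_apply,
    Matrix.smul_apply, smul_eq_mul, map_add, map_sum, map_mul, aeval_X, algHom_C, algebraMap_eq,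
    add_mul, one_mul, Finset.sum_add_distrib]
  ring

/-- the 0-1 pattern -/
def ZZ {D N a k0 : ℕ} {n : ℕ} (E : Fin n ≃ ((Fin N ⊕ Fin (a + 1)) × Fin D) ⊕ Fin k0) :
    Matrix (Fin n) (Fin n) ℕ := fun x y =>
  if x = y then 0 else
    (bigM (R := ℤ) (k := k0) (fun _ : Fin D => (Matrix.of fun _ _ => (1 : ℤ) :
      Matrix (Fin N ⊕ Fin (a + 1)) (Fin N ⊕ Fin (a + 1)) ℤ)) (E x) (E y)).toNat

theorem ZZ_le {D N a k0 : ℕ} {n : ℕ} (E : Fin n ≃ ((Fin N ⊕ Fin (a + 1)) × Fin D) ⊕ Fin k0)
    (x y : Fin n) : ZZ E x y ≤ 1 := by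
  unfold ZZ
  split_ifs with h
  · exact Nat.zero_le _
  · rcases E x with ⟨i, j⟩ | i <;> rcases E y with ⟨i', j'⟩ | i'
    · simp only [bigM, Matrix.fromBlocks_apply₁₁, Matrix.blockDiagonal_apply]
      split_ifs <;> simp
    · simp [bigM]
    · simp [bigM]
    · simp only [bigM, Matrix.fromBlocks_apply₂₂, Matrix.one_apply]
      split_ifs <;> simp

theorem ZZ_diag {D N a k0 : ℕ} {n : ℕ} (E : Fin n ≃ ((Fin N ⊕ Fin (a + 1)) × Fin D) ⊕ Fin k0)
    (x : Fin n) : ZZ E x x = 0 := by
  simp [ZZ]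

/-- the diagonal: the values `w`, and `1` at the other places -/
def dg {R : Type*} [One R] {D N a k0 : ℕ} {n : ℕ}
    (E : Fin n ≃ ((Fin N ⊕ Fin (a + 1)) × Fin D) ⊕ Fin k0) (w : PD D N a → R) : Fin n → R :=
  fun x => Sum.elim (fun p : (Fin N ⊕ Fin (a + 1)) × Fin D => w (p.2, p.1)) (fun _ => 1) (E x)

theorem ZZ_add {R : Type*} [CommRing R] {D N a k0 : ℕ} {n : ℕ}
    (E : Fin n ≃ ((Fin N ⊕ Fin (a + 1)) × Fin D) ⊕ Fin k0) (w : PD D N a → R) :
    (ZZ E).map (Nat.cast : ℕ → R) + Matrix.diagonal (dg E fun p => w p + 1) =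
    (bigM (k := k0) (fun j : Fin D => (Matrix.of fun _ _ => (1 : R)) +
      Matrix.diagonal (fun i => w (j, i)) :
      Fin D → Matrix (Fin N ⊕ Fin (a + 1)) (Fin N ⊕ Fin (a + 1)) R)).submatrix E E := by
  ext x y
  rw [Matrix.add_apply, Matrix.map_apply, Matrix.submatrix_apply, Matrix.diagonal_apply]
  by_cases h : x = y
  · subst h
    rw [if_pos rfl, ZZ_diag, Nat.cast_zero, zero_add, dg]
    rcases hE : E x with ⟨i, j⟩ | i
    · simp [bigM, add_comm]
    · simp [bigM]
  · rw [if_neg h, add_zero]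
    have h' : E x ≠ E y := fun e => h (E.injective e)
    unfold ZZ
    rw [if_neg h]
    rcases hx : E x with ⟨i, j⟩ | i <;> rcases hy : E y with ⟨i', j'⟩ | i'
    · rw [hx, hy] at h'
      simp only [bigM, Matrix.fromBlocks_apply₁₁, Matrix.blockDiagonal_apply]
      by_cases hj : j = j'
      · subst hj
        have hi : i ≠ i' := fun e => h' (by rw [e])
        simp [Matrix.diagonal_apply_ne _ hi]
      · simp [hj]
    · simp [bigM]
    · simp [bigM]
    · rw [hx, hy] at h'
      have hi : i ≠ i' := fun e => h' (by rw [e])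
      simp [bigM, Matrix.one_apply_ne hi]

theorem ZZ_perm {R : Type*} [CommRing R] {D N a k0 : ℕ} {n : ℕ}
    (E : Fin n ≃ ((Fin N ⊕ Fin (a + 1)) × Fin D) ⊕ Fin k0) (w : PD D N a → R) :
    ((ZZ E).map (Nat.cast : ℕ → R) + Matrix.diagonal (dg E fun p => w p + 1)).permanent =
      ∏ j, ((Matrix.of fun _ _ => (1 : R)) + Matrix.diagonal (fun i => w (j, i)) :
        Matrix (Fin N ⊕ Fin (a + 1)) (Fin N ⊕ Fin (a + 1)) R).permanent := by
  rw [ZZ_add, perm_submatrix, perm_bigM]

/-- the permanent with variables on the diagonal -/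
noncomputable def P1 (K : Type) [Field K] {D N a k0 : ℕ} {n : ℕ}
    (E : Fin n ≃ ((Fin N ⊕ Fin (a + 1)) × Fin D) ⊕ Fin k0) : MvPolynomial (PD D N a) K :=
  ((ZZ E).map (Nat.cast : ℕ → MvPolynomial (PD D N a) K) + Matrix.diagonal (dg E X)).permanent

theorem P1_shift {D N a k0 : ℕ} {n : ℕ}
    (E : Fin n ≃ ((Fin N ⊕ Fin (a + 1)) × Fin D) ⊕ Fin k0) :
    aeval (fun e => (X e + 1 : MvPolynomial (PD D N a) K)) (P1 K E) = FD K D N a := by
  rw [FD, ← ZZ_perm E (fun e => (X e : MvPolynomial (PD D N a) K)), P1]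
  have h := map_perm ((aeval (fun e => (X e + 1 : MvPolynomial (PD D N a) K)) :
    MvPolynomial (PD D N a) K →ₐ[K] MvPolynomial (PD D N a) K) :
    MvPolynomial (PD D N a) K →+* MvPolynomial (PD D N a) K)
    ((ZZ E).map (Nat.cast : ℕ → MvPolynomial (PD D N a) K) + Matrix.diagonal (dg E X))
  refine h.trans ?_
  congr 1
  ext1 x y
  rw [Matrix.map_apply, Matrix.add_apply, Matrix.add_apply, map_add, Matrix.map_apply,
    map_natCast, Matrix.diagonal_apply, Matrix.diagonal_apply]
  congr 1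
  by_cases h : x = y
  · rw [if_pos h, if_pos h, dg, dg]
    rcases E x with p | i
    · simp
    · simp
  · rw [if_neg h, if_neg h, map_zero]

theorem P1_eval {D N a k0 : ℕ} {n : ℕ}
    (E : Fin n ≃ ((Fin N ⊕ Fin (a + 1)) × Fin D) ⊕ Fin k0) (v : PD D N a → ℕ) :
    eval (fun e => (v e : K)) (P1 K E) =
      (((ZZ E + Matrix.diagonal (dg E v)).permanent : ℕ) : K) := by
  have h1 : (((ZZ E + Matrix.diagonal (dg E v)).permanent : ℕ) : K) =
      ((ZZ E + Matrix.diagonal (dg E v)).map (Nat.cast : ℕ → K)).permanent := by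
    simp only [Matrix.permanent, Nat.cast_sum, Nat.cast_prod, Matrix.map_apply]
  rw [h1, P1, map_perm]
  congr 1
  ext1 x y
  rw [Matrix.map_apply, Matrix.map_apply, Matrix.add_apply, Matrix.add_apply, map_add,
    Matrix.map_apply, map_natCast, Nat.cast_add, Matrix.diagonal_apply, Matrix.diagonal_apply]
  congr 1
  by_cases h : x = y
  · rw [if_pos h, if_pos h, dg, dg]
    rcases E x with p | i
    · simp
    · simp
  · rw [if_neg h, if_neg h, map_zero, Nat.cast_zero]

theorem P1_degreeOf {D N a k0 : ℕ} {n : ℕ}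
    (E : Fin n ≃ ((Fin N ⊕ Fin (a + 1)) × Fin D) ⊕ Fin k0) (e : PD D N a) :
    (P1 K E).degreeOf e ≤ 1 := by
  classical
  rw [P1, Matrix.permanent]
  refine (degreeOf_sum_le _ _ _).trans (Finset.sup_le fun τ _ => ?_)
  refine (degreeOf_prod_le _ _ _).trans ?_
  have hc : ∀ k : ℕ, ((k : ℕ) : MvPolynomial (PD D N a) K).degreeOf e = 0 := by
    intro k
    have : ((k : ℕ) : MvPolynomial (PD D N a) K) = C (k : K) := by simp
    rw [this, degreeOf_C]
  calc ∑ i, _ ≤ ∑ i : Fin n, if i = E.symm (Sum.inl (e.2, e.1)) then 1 else 0 :=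
        Finset.sum_le_sum fun i _ => by
          rw [Matrix.add_apply, Matrix.map_apply, Matrix.diagonal_apply]
          refine (degreeOf_add_le _ _ _).trans (max_le (by rw [hc]; exact Nat.zero_le _) ?_)
          by_cases h : τ i = i
          · rw [if_pos h, dg]
            rcases hE : E (τ i) with p | j
            · rw [Sum.elim_inl, degreeOf_X]
              by_cases hp : e = (p.2, p.1)
              · rw [if_pos hp, if_pos]
                rw [h] at hE
                rw [hp, Equiv.eq_symm_apply, hE]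
              · rw [if_neg hp]; exact Nat.zero_le _
            · rw [Sum.elim_inr, degreeOf_one]; exact Nat.zero_le _
          · rw [if_neg h, degreeOf_zero]; exact Nat.zero_le _
    _ ≤ 1 := by
      rw [Finset.sum_ite_eq' Finset.univ]
      split_ifs <;> simp

theorem diag_reduction [CharZero K] {n r M ρ d D N a : ℕ} (s : Fin r → ℕ)
    (F : ∀ i, Matrix (Fin n) (Fin n) ℕ → Matrix (Fin (s i)) (Fin (s i)) K)
    (B : ∀ i, Matrix (Fin n) (Fin n) ℕ → Fin n → Matrix (Fin (s i)) (Fin (s i)) K)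
    (h : ∀ Z : Matrix (Fin n) (Fin n) ℕ, (∀ x y, Z x y ≤ 1) → (∀ x, Z x x = 0) →
      ∀ w : Fin n → ℕ, (∀ x, w x ≤ d) → ((Z + Matrix.diagonal w).permanent : K) =
        ∑ i, (F i Z + ∑ x, (w x : K) • B i Z x).det)
    (hd : 1 ≤ d) (hBd : ∀ i Z x, (B i Z x).rank ≤ d)
    (hs : ∀ i, s i ≤ M ∨ ∀ Z x, (B i Z x).rank ≤ ρ) (hM : n * ρ ≤ M) (hM1 : 1 ≤ M)
    (hn : D * (N + a + 1) ≤ n) :
    ∃ L : Fin r → Matrix (Fin M) (Fin M) (MvPolynomial (PD D N a) K),
      (∀ i x y, (L i x y).totalDegree ≤ 1) ∧ FD K D N a = ∑ i, (L i).det := by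
  classical
  obtain ⟨k0, hk0⟩ := Nat.exists_eq_add_of_le hn
  have hcard : Fintype.card (Fin n) =
      Fintype.card (((Fin N ⊕ Fin (a + 1)) × Fin D) ⊕ Fin k0) := by
    simp only [Fintype.card_fin, Fintype.card_sum, Fintype.card_prod]
    rw [hk0]
    ring
  let E := Fintype.equivOfCardEq hcard
  set Z := ZZ E with hZ
  set A1 : ∀ i, Matrix (Fin (s i)) (Fin (s i)) K := fun i => F i Z +
    ∑ k : Fin k0, B i Z (E.symm (Sum.inr k)) with hA1
  set B' : ∀ i, PD D N a → Matrix (Fin (s i)) (Fin (s i)) K :=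
    fun i p => B i Z (E.symm (Sum.inl (p.2, p.1))) with hB'
  have hterm : ∀ i (w : PD D N a → ℕ), F i Z + ∑ x, ((dg E w x : ℕ) : K) • B i Z x =
      A1 i + ∑ p, (w p : K) • B' i p := by
    intro i w
    simp only [hA1, dg]
    rw [add_assoc]
    congr 1
    rw [← E.symm.sum_comp, Fintype.sum_sum_type, add_comm]
    simp only [Equiv.apply_symm_apply, Sum.elim_inl, Sum.elim_inr, Nat.cast_one, one_smul]
    congr 1
    rw [← (Equiv.prodComm (Fin D) (Fin N ⊕ Fin (a + 1))).sum_comp]
    rfl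
  have hpoly1 : P1 K E = ∑ i, ((A1 i).map (C : K → MvPolynomial (PD D N a) K) +
        ∑ e, (X e : MvPolynomial (PD D N a) K) •
          (B' i e).map (C : K → MvPolynomial (PD D N a) K)).det := by
    apply grid (d := d)
    · intro e
      exact (P1_degreeOf E e).trans hd
    · intro e
      refine (degreeOf_sum_le _ _ _).trans (Finset.sup_le fun i _ => ?_)
      exact (degreeOf_det_rank (A1 i) (B' i) e).trans (hBd _ _ _)
    · intro v hv
      rw [map_sum, P1_eval, h Z (ZZ_le E) (ZZ_diag E)]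
      · apply Finset.sum_congr rfl
        intro i _
        rw [eval_affine_det, hterm]
      · intro x
        rw [dg]
        rcases E x with p | k
        · exact hv _
        · exact hd
  have hpoly : FD K D N a = ∑ i, ((A1 i + ∑ e, B' i e).map (C : K → MvPolynomial (PD D N a) K) +
        ∑ e, (X e : MvPolynomial (PD D N a) K) •
          (B' i e).map (C : K → MvPolynomial (PD D N a) K)).det := by
    rw [← P1_shift E, hpoly1, map_sum]
    exact Finset.sum_congr rfl fun i _ => shift_affine_det _ _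
  have hL : ∀ i, ∃ L : Matrix (Fin M) (Fin M) (MvPolynomial (PD D N a) K),
      (∀ x y, (L x y).totalDegree ≤ 1) ∧
      ((A1 i + ∑ e, B' i e).map (C : K → MvPolynomial (PD D N a) K) +
        ∑ e, (X e : MvPolynomial (PD D N a) K) •
          (B' i e).map (C : K → MvPolynomial (PD D N a) K)).det = L.det := by
    intro i
    rcases hs i with hi | hi
    · obtain ⟨L, hL1, hL2⟩ := exists_pad hi ((A1 i + ∑ e, B' i e).map
          (C : K → MvPolynomial (PD D N a) K) +
        ∑ e, (X e : MvPolynomial (PD D N a) K) •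
          (B' i e).map (C : K → MvPolynomial (PD D N a) K)) (by
            intro x y
            rw [Matrix.add_apply, Matrix.sum_apply]
            refine (totalDegree_add _ _).trans (max_le ?_ ?_)
            · rw [Matrix.map_apply, totalDegree_C]; exact Nat.zero_le _
            · refine totalDegree_finsetSum_le fun e _ => ?_
              rw [Matrix.smul_apply, Matrix.map_apply, smul_eq_mul]
              refine (totalDegree_mul _ _).trans ?_
              rw [totalDegree_C, add_zero]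
              exact (totalDegree_X (R := K) _).le)
      exact ⟨L, hL1, hL2.symm⟩
    · have hcP : Fintype.card (PD D N a) * ρ ≤ M := by
        refine le_trans (Nat.mul_le_mul_right ρ ?_) hM
        simp only [Fintype.card_prod, Fintype.card_fin, Fintype.card_sum]
        calc D * (N + (a + 1)) = D * (N + a + 1) := by ring
          _ ≤ n := hn
      obtain ⟨L, hL1, hL2⟩ := Pool.Agent.Helper41.SD.det_low_rank_pad
        (A1 i + ∑ e, B' i e) (B' i) (fun e => hi _ _) hcP hM1
      exact ⟨L, hL1, hL2⟩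
  choose L hL1 hL2 using hL
  refine ⟨L, hL1, ?_⟩
  rw [hpoly]
  exact Finset.sum_congr rfl fun i _ => hL2 i

end Pool.DG
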