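import Mathlib

/-! # The permanent of the all-ones matrix plus a diagonal matrix -/

open Finset
open scoped BigOperators

namespace Pool.DG

section ring

variable {R : Type*} [CommRing R]

/-- the functional with `X ^ i` going to `i !` -/
noncomputable def lag (R : Type*) [CommRing R] : Polynomial R →ₗ[R] R :=
  Polynomial.lsum (fun i => (LinearMap.mulRight R (i.factorial : R)))

theorem lag_monomial (i : ℕ) (c : R) : lag R (Polynomial.monomial i c) = c * (i.factorial : R) := by
  simp [lag, Polynomial.lsum_apply]

theorem lag_C_mul (c : R) (p : Polynomial R) : lag R (Polynomial.C c * p) = c * lag R p := by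
  rw [← Polynomial.smul_eq_C_mul, map_smul, smul_eq_mul]

theorem lag_X_pow (i : ℕ) : lag R (Polynomial.X ^ i) = (i.factorial : R) := by
  rw [← Polynomial.monomial_one_right_eq_X_pow, lag_monomial, one_mul]

theorem lag_map {S : Type*} [CommRing S] (f : R →+* S) (p : Polynomial R) :
    lag S (p.map f) = f (lag R p) := by
  induction p using Polynomial.induction_on' with
  | add p q hp hq => rw [Polynomial.map_add, map_add, map_add, map_add, hp, hq]
  | monomial n c => rw [Polynomial.map_monomial, lag_monomial, lag_monomial, map_mul, map_natCast]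

theorem card_fix {α : Type*} [Fintype α] [DecidableEq α] (S : Finset α) :
    Fintype.card {σ : Equiv.Perm α // ∀ i ∈ S, σ i = i} = (Fintype.card α - S.card).factorial := by
  have h1 := Fintype.card_congr (Equiv.Perm.subtypeEquivSubtypePerm (fun i : α => i ∉ S))
  rw [Fintype.card_perm, Fintype.card_subtype_compl] at h1
  simp only [Fintype.card_coe, not_not] at h1
  exact h1.symm

/-- the permanent of `J + diagonal w` -/
theorem perm_J_add_diagonal {α : Type*} [Fintype α] [DecidableEq α] (w : α → R) :
    ((Matrix.of fun _ _ => (1 : R)) + Matrix.diagonal w : Matrix α α R).permanent =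
      lag R (∏ i, (Polynomial.X + Polynomial.C (w i))) := by
  have hR : lag R (∏ i, (Polynomial.X + Polynomial.C (w i))) =
      ∑ S : Finset α, (∏ i ∈ S, w i) * ((Fintype.card α - S.card).factorial : R) := by
    have h1 : ∏ i, (Polynomial.X + Polynomial.C (w i)) =
        ∏ i, (Polynomial.C (w i) + Polynomial.X) := by
      apply Finset.prod_congr rfl
      intro i _
      rw [add_comm]
    rw [h1, Finset.prod_add, map_sum, Finset.powerset_univ]
    apply Finset.sum_congr rfl
    intro S _
    rw [← map_prod, Finset.prod_const, lag_C_mul, lag_X_pow, ← Finset.compl_eq_univ_sdiff,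
      Finset.card_compl]
  rw [hR, Matrix.permanent]
  have hL : ∀ σ : Equiv.Perm α, ∏ i, ((Matrix.of fun _ _ => (1 : R)) + Matrix.diagonal w :
      Matrix α α R) (σ i) i = ∑ S : Finset α, (∏ i ∈ S, w i) *
        (if ∀ i ∈ S, σ i = i then 1 else 0) := by
    intro σ
    have h2 : ∀ i, ((Matrix.of fun _ _ => (1 : R)) + Matrix.diagonal w : Matrix α α R) (σ i) i =
        (if σ i = i then w i else 0) + 1 := by
      intro i
      rw [Matrix.add_apply, Matrix.of_apply, Matrix.diagonal_apply, add_comm]
      congr 1
      by_cases h : σ i = i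
      · rw [if_pos h, if_pos h, h]
      · rw [if_neg h, if_neg h]
    simp_rw [h2]
    rw [Finset.prod_add, Finset.powerset_univ]
    apply Finset.sum_congr rfl
    intro S _
    rw [Finset.prod_const_one, mul_one]
    by_cases hS : ∀ i ∈ S, σ i = i
    · rw [if_pos hS, mul_one]
      apply Finset.prod_congr rfl
      intro i hi
      rw [if_pos (hS i hi)]
    · rw [if_neg hS, mul_zero]
      push Not at hS
      obtain ⟨i, hi, hne⟩ := hS
      exact Finset.prod_eq_zero hi (if_neg hne)
  simp_rw [hL]
  rw [Finset.sum_comm]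
  apply Finset.sum_congr rfl
  intro S _
  rw [← Finset.mul_sum, Finset.sum_boole]
  congr 2
  rw [← card_fix S, Fintype.card_subtype]

/-- linear in one entry -/
theorem perm_J_update {α : Type*} [Fintype α] [DecidableEq α] (w : α → R) (k : α) (y : R) :
    ((Matrix.of fun _ _ => (1 : R)) +
      Matrix.diagonal (fun i => w i + if i = k then y else 0) : Matrix α α R).permanent =
      lag R (∏ i, (Polynomial.X + Polynomial.C (w i))) +
        y * lag R (∏ i ∈ univ.erase k, (Polynomial.X + Polynomial.C (w i))) := by
  rw [perm_J_add_diagonal, ← Finset.mul_prod_erase univ _ (Finset.mem_univ k),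
    ← Finset.mul_prod_erase univ (fun i => Polynomial.X + Polynomial.C (w i)) (Finset.mem_univ k)]
  have h1 : ∏ i ∈ univ.erase k, (Polynomial.X + Polynomial.C (w i + if i = k then y else 0)) =
      ∏ i ∈ univ.erase k, (Polynomial.X + Polynomial.C (w i)) := by
    apply Finset.prod_congr rfl
    intro i hi
    rw [if_neg (Finset.ne_of_mem_erase hi), add_zero]
  rw [h1, if_pos rfl, Polynomial.C_add, ← add_assoc, add_mul _ (Polynomial.C y), map_add, lag_C_mul]

end ring

section laguerre

/-- alternating sums of binomial coefficients -/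
theorem alt_choose (j : ℕ) : ∀ s r : ℕ,
    ∑ i ∈ range (j + 1), (-1 : ℤ) ^ i * (j.choose i : ℤ) * ((s + i).choose r : ℤ) =
      if j ≤ r then (-1) ^ j * (s.choose (r - j) : ℤ) else 0 := by
  induction j with
  | zero => intro s r; simp
  | succ j ih =>
    intro s r
    have h1 : ∑ i ∈ range (j + 1 + 1), (-1 : ℤ) ^ i * ((j + 1).choose i : ℤ) *
        ((s + i).choose r : ℤ) =
        (∑ i ∈ range (j + 1), (-1 : ℤ) ^ i * (j.choose i : ℤ) * ((s + i).choose r : ℤ)) -
        ∑ i ∈ range (j + 1), (-1 : ℤ) ^ i * (j.choose i : ℤ) * ((s + 1 + i).choose r : ℤ) := by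
      rw [Finset.sum_range_succ' _ (j + 1)]
      have h2 : ∑ i ∈ range (j + 1), (-1 : ℤ) ^ (i + 1) * ((j + 1).choose (i + 1) : ℤ) *
          ((s + (i + 1)).choose r : ℤ) =
          (∑ i ∈ range (j + 1), (-1 : ℤ) ^ (i + 1) * (j.choose (i + 1) : ℤ) *
            ((s + (i + 1)).choose r : ℤ)) -
          ∑ i ∈ range (j + 1), (-1 : ℤ) ^ i * (j.choose i : ℤ) * ((s + 1 + i).choose r : ℤ) := by
        rw [← Finset.sum_sub_distrib]
        apply Finset.sum_congr rfl
        intro i _
        rw [Nat.choose_succ_succ]
        have : s + 1 + i = s + (i + 1) := by ring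
        rw [this]
        push_cast
        ring
      rw [h2]
      have h3 : ∑ i ∈ range (j + 1), (-1 : ℤ) ^ i * (j.choose i : ℤ) * ((s + i).choose r : ℤ) =
          (∑ i ∈ range (j + 1), (-1 : ℤ) ^ (i + 1) * (j.choose (i + 1) : ℤ) *
            ((s + (i + 1)).choose r : ℤ)) +
          (-1 : ℤ) ^ 0 * ((j + 1).choose 0 : ℤ) * ((s + 0).choose r : ℤ) := by
        rw [Finset.sum_range_succ (fun i => (-1 : ℤ) ^ (i + 1) * (j.choose (i + 1) : ℤ) *
            ((s + (i + 1)).choose r : ℤ)) j]
        rw [Finset.sum_range_succ' (fun i => (-1 : ℤ) ^ i * (j.choose i : ℤ) *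
          ((s + i).choose r : ℤ)) j]
        simp
      rw [h3]
      ring
    rw [h1, ih, ih]
    by_cases h : j + 1 ≤ r
    · rw [if_pos (by omega), if_pos (by omega), if_pos h]
      obtain ⟨e, rfl⟩ := Nat.exists_eq_add_of_le h
      have e1 : j + 1 + e - j = e + 1 := by omega
      have e2 : j + 1 + e - (j + 1) = e := by omega
      rw [e1, e2, Nat.choose_succ_succ]
      push_cast
      ring
    · rw [if_neg h]
      by_cases h' : j ≤ r
      · have : r = j := by omega
        subst this
        simp
      · simp [h']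

variable {K : Type*} [Field K]

/-- the Laguerre polynomials -/
noncomputable def Pj (K : Type*) [Field K] (j : ℕ) : Polynomial K :=
  ∑ i ∈ range (j + 1), Polynomial.monomial i ((-1) ^ i * (j.choose i : K) / (i.factorial : K))

theorem Pj_degree (j : ℕ) : (Pj K j).degree ≤ j := by
  unfold Pj
  refine (Polynomial.degree_sum_le _ _).trans ?_
  rw [Finset.sup_le_iff]
  intro i hi
  refine (Polynomial.degree_monomial_le _ _).trans ?_
  rw [Finset.mem_range] at hi
  exact_mod_cast Nat.lt_succ_iff.1 hi

theorem lag_Pj [CharZero K] (j r : ℕ) : lag K (Polynomial.X ^ r * Pj K j) =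
    if j ≤ r then (-1) ^ j * (r.choose (r - j) : K) * (r.factorial : K) else 0 := by
  unfold Pj
  rw [Finset.mul_sum, map_sum]
  have h1 : ∀ i ∈ range (j + 1), lag K (Polynomial.X ^ r *
      Polynomial.monomial i ((-1) ^ i * (j.choose i : K) / (i.factorial : K))) =
      (r.factorial : K) * ((-1 : K) ^ i * (j.choose i : K) * ((r + i).choose r : K)) := by
    intro i _
    rw [← Polynomial.monomial_one_right_eq_X_pow, Polynomial.monomial_mul_monomial, one_mul,
      lag_monomial]
    have h2 : ((r + i).factorial : K) = ((r + i).choose r : K) * (r.factorial : K) *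
        (i.factorial : K) := by
      have := Nat.add_choose_mul_factorial_mul_factorial r i
      rw [← Nat.choose_symm_add] at this
      exact_mod_cast this.symm
    have h3 : (i.factorial : K) ≠ 0 := by exact_mod_cast Nat.factorial_ne_zero i
    rw [h2]
    field_simp
  rw [Finset.sum_congr rfl h1, ← Finset.mul_sum]
  have h4 := congrArg (fun z : ℤ => (z : K)) (alt_choose j r r)
  push_cast at h4
  rw [h4]
  split_ifs
  · ring
  · ring

end laguerre

end Pool.DG
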