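import Pool.Agent.Helper95.DG.Func
import Pool.Agent.SDet.Main
import Pool.Agent.Helper90.SD.DiagNum

/-! # The main inequality and the final theorem -/

open MvPolynomial Finset
open scoped BigOperators ENNReal

set_option linter.unusedSectionVars false

namespace Pool.DG

open Pool.SDL Pool.Agent.SDet

variable {K : Type} [Field K]

theorem main_ennreal [CharZero K] {n r M ρ d D N a : ℕ} (s : Fin r → ℕ)
    (F : ∀ i, Matrix (Fin n) (Fin n) ℕ → Matrix (Fin (s i)) (Fin (s i)) K)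
    (B : ∀ i, Matrix (Fin n) (Fin n) ℕ → Fin n → Matrix (Fin (s i)) (Fin (s i)) K)
    (h : ∀ Z : Matrix (Fin n) (Fin n) ℕ, (∀ x y, Z x y ≤ 1) → (∀ x, Z x x = 0) →
      ∀ w : Fin n → ℕ, (∀ x, w x ≤ d) → ((Z + Matrix.diagonal w).permanent : K) =
        ∑ i, (F i Z + ∑ x, (w x : K) • B i Z x).det)
    (hd : 1 ≤ d) (hBd : ∀ i Z x, (B i Z x).rank ≤ d)
    (hs : ∀ i, s i ≤ M ∨ ∀ Z x, (B i Z x).rank ≤ ρ) (hM : n * ρ ≤ M) (hnM : n ≤ M)
    (hD : 1 ≤ D) (haN : a < N) (hn : D * (N + a + 1) ≤ n) (Q : ℝ≥0∞) (hQ : Q < 1) :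
    Q ^ (a * D) * (1 - (1 - Q ^ N) ^ (a + 1)) ^ D ≤
      Q ^ ((N - a) * D) * (r * 
        (∑ j ∈ Finset.range (D + 1), (Nat.choose (M - D - 1 + j) j : ℝ≥0∞) * (1 - Q) ^ j) ^ 2) := by
  classical
  have : Infinite K := CharZero.infinite K
  have hDn : D < n := by nlinarith [Nat.mul_le_mul_left D (show 2 ≤ N + a + 1 by omega)]
  have hDM : D < M := lt_of_lt_of_le hDn hnM
  obtain ⟨L, hL1, hL2⟩ := diag_reduction s F B h hd hBd hs hM (by omega) hn
  have hk1 : 1 ≤ M - D := by omega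
  have hkm : M - D ≤ M := Nat.sub_le _ _
  set L' : Fin r → Matrix (Fin M) (Fin M) (MvPolynomial (Fin D × Option (Fin N)) K) :=
    fun i => (L i).map (aeval (phi0 K)) with hL'
  have hL'1 : ∀ i p q, (L' i p q).totalDegree ≤ 1 := by
    intro i p q
    exact (totalDegree_aeval_le' (phi0 K) (fun p => phi0_totalDegree p) _).trans (hL1 i p q)
  have hmem : ∀ kk : Fin D → Fin (a + 1),
      ∏ b, rename (fun v => (b, v)) (qk K N a (kk b)) ∈ ⨆ i, detSpan (L' i) (M - D) := by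
    intro kk
    rw [← HD_FD, hL2, map_sum]
    exact Submodule.sum_mem _ fun i _ => Submodule.mem_iSup_of_mem i (HD_det kk (L i) (hL1 i))
  have hmain := sideL_top (K := K) (Fin D) (Fin M × Fin M) N a haN (qk K N a)
    (fun r hr => qk_top N a haN r hr) Q hQ
  rw [Fintype.card_fin] at hmain
  refine hmain.trans (mul_le_mul' le_rfl ?_)
  have hc2 : Fintype.card ((Fin D × Option (Fin N)) ⊕ (Fin M × Fin M)) + 1 =
      Fintype.card (Fin D × Option (Fin N)) + M * M + 1 := by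
    simp [Fintype.card_sum, Fintype.card_prod]
  rw [hc2]
  set c0 := Fintype.card (Fin D × Option (Fin N)) with hc0
  set cnt : ℕ → ℕ := fun l => ∑ f : Fin (M - D) ↪o Fin M, ∑ g : Fin (M - D) ↪o Fin M,
        Nat.multichoose (c0 + M * M + 1 - rho f - rho g) l with hcnt
  have h1 : ∀ l, (Module.finrank K (Vl (Fin D) (Fin M × Fin M) (qk K N a) l) : ℝ≥0∞) ≤
      r * (cnt l : ℝ≥0∞) := by
    intro l
    have := finrank_Vl_le (K := K) (l := l) hkm (qk K N a) L' hL'1 hmem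
    calc (Module.finrank K (Vl (Fin D) (Fin M × Fin M) (qk K N a) l) : ℝ≥0∞)
        ≤ ((r * cnt l : ℕ) : ℝ≥0∞) := by exact_mod_cast this
      _ = r * (cnt l : ℝ≥0∞) := by push_cast; ring
  calc (1 - Q) ^ (c0 + M * M + 1) * ∑' l, Q ^ l *
        (Module.finrank K (Vl (Fin D) (Fin M × Fin M) (qk K N a) l) : ℝ≥0∞)
      ≤ (1 - Q) ^ (c0 + M * M + 1) * ∑' l, Q ^ l * (r * (cnt l : ℝ≥0∞)) := by
        gcongr with l
        exact h1 l
    _ = r * ((1 - Q) ^ (c0 + M * M + 1) * ∑' l, Q ^ l * (cnt l : ℝ≥0∞)) := by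
        have : ∀ l, Q ^ l * (r * (cnt l : ℝ≥0∞)) = r * (Q ^ l * (cnt l : ℝ≥0∞)) := by
          intro l; ring
        simp_rw [this]
        rw [ENNReal.tsum_mul_left]
        ring
    _ ≤ r * (∑ f : Fin (M - D) ↪o Fin M, (1 - Q) ^ rho f) ^ 2 := by
        gcongr
        exact Pool.Agent.Helper90.SD.U3_series Q hQ
    _ ≤ _ := by
        have e1 : M - (M - D) = D := by omega
        have e2 := Pool.Agent.Helper90.SD.U3_rho (m := M) hk1 (1 - Q)
        rw [e1] at e2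
        gcongr

theorem main_real [CharZero K] {n r M ρ d D N a : ℕ} (s : Fin r → ℕ)
    (F : ∀ i, Matrix (Fin n) (Fin n) ℕ → Matrix (Fin (s i)) (Fin (s i)) K)
    (B : ∀ i, Matrix (Fin n) (Fin n) ℕ → Fin n → Matrix (Fin (s i)) (Fin (s i)) K)
    (h : ∀ Z : Matrix (Fin n) (Fin n) ℕ, (∀ x y, Z x y ≤ 1) → (∀ x, Z x x = 0) →
      ∀ w : Fin n → ℕ, (∀ x, w x ≤ d) → ((Z + Matrix.diagonal w).permanent : K) =
        ∑ i, (F i Z + ∑ x, (w x : K) • B i Z x).det)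
    (hd : 1 ≤ d) (hBd : ∀ i Z x, (B i Z x).rank ≤ d)
    (hs : ∀ i, s i ≤ M ∨ ∀ Z x, (B i Z x).rank ≤ ρ) (hM : n * ρ ≤ M) (hnM : n ≤ M)
    (hD : 1 ≤ D) (haN : a < N) (hn : D * (N + a + 1) ≤ n) (q : ℝ) (hq0 : 0 < q) (hq1 : q < 1) :
    q ^ (a * D) * (1 - (1 - q ^ N) ^ (a + 1)) ^ D ≤
      r * q ^ ((N - a) * D) *
        (∑ j ∈ Finset.range (D + 1), (Nat.choose (M - D - 1 + j) j : ℝ) * (1 - q) ^ j) ^ 2 := by
  have hQ : ENNReal.ofReal q < 1 := by
    rw [← ENNReal.ofReal_one]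
    exact (ENNReal.ofReal_lt_ofReal_iff (by norm_num)).mpr hq1
  have key := main_ennreal s F B h hd hBd hs hM hnM hD haN hn (ENNReal.ofReal q) hQ
  have e0 : (1 : ℝ≥0∞) - ENNReal.ofReal q = ENNReal.ofReal (1 - q) := by
    rw [ENNReal.ofReal_sub _ hq0.le, ENNReal.ofReal_one]
  have h1q : 0 ≤ 1 - q := by linarith
  have hqN : q ^ N ≤ 1 := pow_le_one₀ hq0.le hq1.le
  have h1qN : 0 ≤ 1 - q ^ N := by linarith
  have h1qN' : (1 - q ^ N) ^ (a + 1) ≤ 1 := pow_le_one₀ h1qN (by linarith [pow_pos hq0 N])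
  have e1 : ((1 : ℝ≥0∞) - (1 - ENNReal.ofReal q ^ N) ^ (a + 1)) ^ D =
      ENNReal.ofReal ((1 - (1 - q ^ N) ^ (a + 1)) ^ D) := by
    rw [ENNReal.ofReal_pow (by linarith), ENNReal.ofReal_sub _ (pow_nonneg h1qN _),
      ENNReal.ofReal_pow h1qN, ENNReal.ofReal_sub _ (pow_nonneg hq0.le _),
      ENNReal.ofReal_pow hq0.le, ENNReal.ofReal_one]
  have e2 : ∑ j ∈ Finset.range (D + 1), (Nat.choose (M - D - 1 + j) j : ℝ≥0∞) *
      (1 - ENNReal.ofReal q) ^ j = ENNReal.ofReal (∑ j ∈ Finset.range (D + 1),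
        (Nat.choose (M - D - 1 + j) j : ℝ) * (1 - q) ^ j) := by
    rw [ENNReal.ofReal_sum_of_nonneg (fun j _ => by positivity)]
    apply Finset.sum_congr rfl
    intro j _
    rw [e0, ENNReal.ofReal_mul (by positivity), ENNReal.ofReal_pow h1q, ENNReal.ofReal_natCast]
  have hS : 0 ≤ ∑ j ∈ Finset.range (D + 1), (Nat.choose (M - D - 1 + j) j : ℝ) * (1 - q) ^ j :=
    Finset.sum_nonneg (fun j _ => by positivity)
  rw [e1, e2, ← ENNReal.ofReal_pow hq0.le, ← ENNReal.ofReal_pow hq0.le, ← ENNReal.ofReal_pow hS,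
    ← ENNReal.ofReal_natCast,
    ← ENNReal.ofReal_mul (by positivity), ← ENNReal.ofReal_mul (by positivity),
    ← ENNReal.ofReal_mul (by positivity)] at key
  have h3 := (ENNReal.ofReal_le_ofReal_iff (by positivity)).mp key
  calc _ ≤ _ := h3
    _ = _ := by ring

theorem final : ∃ c : ℝ, 0 < c ∧
    ∀ (K : Type) [Field K] [CharZero K] (n r d : ℕ) (μ : ℝ), 1 ≤ d → 1 ≤ μ →
    ∀ (s : Fin r → ℕ)
      (F : ∀ i, Matrix (Fin n) (Fin n) ℕ → Matrix (Fin (s i)) (Fin (s i)) K)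
      (B : ∀ i, Matrix (Fin n) (Fin n) ℕ → Fin n → Matrix (Fin (s i)) (Fin (s i)) K),
    (∀ i Z x, (B i Z x).rank ≤ d) →
    (∀ i, (s i : ℝ) ≤ μ * n ∨ ∀ Z x, ((B i Z x).rank : ℝ) ≤ μ) →
    (∀ Z : Matrix (Fin n) (Fin n) ℕ, (∀ x y, Z x y ≤ 1) → (∀ x, Z x x = 0) →
      ∀ w : Fin n → ℕ, (∀ x, w x ≤ d) → ((Z + Matrix.diagonal w).permanent : K) =
        ∑ i, (F i Z + ∑ x, (w x : K) • B i Z x).det) →
    Real.exp (c * n / (μ ^ 2 * (1 + Real.log μ) ^ 3)) ≤ 2 * r := by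
  obtain ⟨c, hc, H⟩ := diag_numerics
  refine ⟨c, hc, ?_⟩
  intro K _ _ n r d μ hd hμ s F B hBd hs h
  have hr : 1 ≤ r := by
    rcases Nat.eq_zero_or_pos r with hr | hr
    · subst hr
      have h0 := h 0 (fun x y => by simp) (fun x => by simp) (fun _ => 1) (fun _ => hd)
      rw [Finset.univ_eq_empty, Finset.sum_empty, zero_add, Matrix.diagonal_one,
        Matrix.permanent_one, Nat.cast_one] at h0
      exact absurd h0 one_ne_zero
    · exact hr
  rcases Nat.eq_zero_or_pos n with hn | hn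
  · subst hn
    simp only [Nat.cast_zero, mul_zero, zero_div, Real.exp_zero]
    have : (1 : ℝ) ≤ r := by exact_mod_cast hr
    linarith
  apply H n r μ hn hr hμ
  intro D N a hD haN hDn q hq0 hq1
  have hμn : 0 ≤ μ * n := by positivity
  refine main_real (ρ := ⌊μ⌋₊) s F B h hd hBd ?_ ?_ ?_ hD haN hDn q hq0 hq1
  · intro i
    rcases hs i with hi | hi
    · left
      exact Nat.le_floor hi
    · right
      intro Z x
      exact Nat.le_floor (hi Z x)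
  · apply Nat.le_floor
    push_cast
    rw [mul_comm]
    have : (⌊μ⌋₊ : ℝ) ≤ μ := Nat.floor_le (by linarith)
    gcongr
  · apply Nat.le_floor
    have : (n : ℝ) ≤ μ * n := by
      have : (0 : ℝ) ≤ n := by positivity
      nlinarith
    exact this

end Pool.DG
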