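import Pool.Agent.Helper95.DG.SideTop
import Pool.Agent.Helper95.DG.Lag

/-! # The block polynomials and their top forms -/

open MvPolynomial Finset
open scoped BigOperators ENNReal

set_option linter.unusedSectionVars false

namespace Pool.DG

open Pool.SDL

/-- the diagonal of the block: the variables `u_j` and the constants `k` -/
noncomputable def vv (K : Type) [Field K] (N a : ℕ) :
    Fin N ⊕ Fin (a + 1) → MvPolynomial (Option (Fin N)) K
  | Sum.inl j => X (some j)
  | Sum.inr k => C ((k : ℕ) : K)

/-- the block polynomials -/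
noncomputable def qk (K : Type) [Field K] (N a : ℕ) (k : Fin (a + 1)) :
    MvPolynomial (Option (Fin N)) K :=
  lag _ (∏ i ∈ univ.erase (Sum.inr k : Fin N ⊕ Fin (a + 1)),
    (Polynomial.X + Polynomial.C (vv K N a i)))

/-- the product over the variables -/
noncomputable def UU (K : Type) [Field K] (N : ℕ) : Polynomial (MvPolynomial (Option (Fin N)) K) :=
  ∏ j : Fin N, (Polynomial.X + Polynomial.C (X (some j)))

variable {K : Type} [Field K]

theorem prod_erase_inr (N a : ℕ) (k : Fin (a + 1)) :
    ∏ i ∈ univ.erase (Sum.inr k : Fin N ⊕ Fin (a + 1)), (Polynomial.X + Polynomial.C (vv K N a i)) =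
    UU K N * (∏ l ∈ univ.erase k, (Polynomial.X + Polynomial.C ((l : ℕ) : K))).map C := by
  classical
  have h1 : (univ.erase (Sum.inr k : Fin N ⊕ Fin (a + 1))) =
      (univ : Finset (Fin N)).disjSum (univ.erase k) := by
    ext x
    rcases x with x | x
    · simp
    · simp
  rw [h1, Finset.prod_disjSum, Polynomial.map_prod]
  congr 1
  apply Finset.prod_congr rfl
  intro l _
  simp [vv]

theorem UU_eq (N : ℕ) : UU K N = ∑ s ∈ range (N + 1),
    Polynomial.C (rename some (esymm (Fin N) K s)) * Polynomial.X ^ (N - s) := by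
  have h := congrArg (Polynomial.map ((rename some : MvPolynomial (Fin N) K →ₐ[K] _) :
    MvPolynomial (Fin N) K →+* MvPolynomial (Option (Fin N)) K)) (prod_C_add_X_eq_sum_esymm K (Fin N))
  rw [Polynomial.map_prod, Polynomial.map_sum] at h
  simp only [Polynomial.map_add, Polynomial.map_X, Polynomial.map_C, Polynomial.map_mul,
    Polynomial.map_pow, Fintype.card_fin] at h
  rw [UU]
  convert h using 2
  · simp
  · simp

theorem span_prod_erase (a : ℕ) [CharZero K] (P : Polynomial K) (hP : P.degree < (a + 1 : ℕ)) :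
    ∃ lam : Fin (a + 1) → K, P = ∑ k, Polynomial.C (lam k) *
      ∏ l ∈ univ.erase k, (Polynomial.X + Polynomial.C ((l : ℕ) : K)) := by
  classical
  have hinj : Set.InjOn (fun l : Fin (a + 1) => -((l : ℕ) : K)) (univ : Finset (Fin (a + 1))) := by
    intro x _ y _ h
    simpa [Fin.ext_iff] using h
  have h := Lagrange.eq_interpolate (f := P) hinj (by simpa using hP)
  rw [Lagrange.interpolate_apply] at h
  refine ⟨fun k => P.eval (-((k : ℕ) : K)) *
    ∏ l ∈ univ.erase k, (-((k : ℕ) : K) - -((l : ℕ) : K))⁻¹, ?_⟩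
  conv_lhs => rw [h]
  apply Finset.sum_congr rfl
  intro k _
  rw [Lagrange.basis, Polynomial.C_mul, mul_assoc]
  congr 1
  rw [map_prod, ← Finset.prod_mul_distrib]
  apply Finset.prod_congr rfl
  intro l _
  rw [Lagrange.basisDivisor]
  congr 1
  rw [Polynomial.C_neg, sub_neg_eq_add]

theorem lag_mem_span (N a : ℕ) [CharZero K] (P : Polynomial K) (hP : P.degree < (a + 1 : ℕ)) :
    lag _ (UU K N * P.map C) ∈ Submodule.span K (Set.range (qk K N a)) := by
  obtain ⟨lam, hlam⟩ := span_prod_erase a P hP
  rw [hlam, Polynomial.map_sum, Finset.mul_sum, map_sum]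
  apply Submodule.sum_mem
  intro k _
  have h1 : lag _ (UU K N * (Polynomial.C (lam k) *
      ∏ l ∈ univ.erase k, (Polynomial.X + Polynomial.C ((l : ℕ) : K))).map C) =
      lam k • qk K N a k := by
    rw [qk, prod_erase_inr, Polynomial.map_mul, Polynomial.map_C]
    rw [← mul_assoc, mul_comm (UU K N), mul_assoc, lag_C_mul, ← MvPolynomial.smul_eq_C_mul]
  rw [h1]
  exact Submodule.smul_mem _ _ (Submodule.subset_span ⟨k, rfl⟩)

theorem esymm_homog' (N s : ℕ) :
    (rename some (esymm (Fin N) K s) : MvPolynomial (Option (Fin N)) K).IsHomogeneous s :=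
  (SDet.esymm_homog K N s).rename_isHomogeneous

/-- the span of the block polynomials has the top forms `e_(N-r)`, `r ≤ a` -/
theorem qk_top (N a : ℕ) [CharZero K] (haN : a < N) (r : ℕ) (hr : r ≤ a) :
    ∃ f ∈ Submodule.span K (Set.range (qk K N a)),
      Top f (rename some (esymm (Fin N) K (N - r))) (N - r) := by
  classical
  set c : K := (-1) ^ r * (r.factorial : K) with hc
  have hc0 : c ≠ 0 := by
    rw [hc]
    have : (r.factorial : K) ≠ 0 := by exact_mod_cast Nat.factorial_ne_zero r
    exact mul_ne_zero (pow_ne_zero _ (by simp)) this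
  have hdeg : (Pj K r).degree < (a + 1 : ℕ) := by
    refine (Pj_degree r).trans_lt ?_
    exact_mod_cast Nat.lt_succ_of_le hr
  refine ⟨c⁻¹ • lag _ (UU K N * (Pj K r).map C), Submodule.smul_mem _ _ (lag_mem_span N a _ hdeg),
    esymm_homog' N (N - r), ?_⟩
  have h1 : lag _ (UU K N * (Pj K r).map C) = ∑ s ∈ range (N + 1),
      C (lag K (Polynomial.X ^ (N - s) * Pj K r)) * rename some (esymm (Fin N) K s) := by
    rw [UU_eq, Finset.sum_mul, map_sum]
    apply Finset.sum_congr rfl
    intro s _
    rw [mul_assoc, lag_C_mul, mul_comm]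
    congr 1
    rw [← Polynomial.map_X (C : K →+* MvPolynomial (Option (Fin N)) K), ← Polynomial.map_pow,
      ← Polynomial.map_mul, lag_map]
  rw [h1]
  have h2 : N - r ∈ range (N + 1) := by rw [Finset.mem_range]; omega
  rw [← Finset.add_sum_erase _ _ h2]
  have h3 : lag K (Polynomial.X ^ (N - (N - r)) * Pj K r) = c := by
    have e : N - (N - r) = r := by omega
    rw [e, lag_Pj, if_pos le_rfl, Nat.sub_self, Nat.choose_zero_right, Nat.cast_one, mul_one]
  rw [h3, smul_add, ← MvPolynomial.smul_eq_C_mul, smul_smul, inv_mul_cancel₀ hc0, one_smul,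
    add_sub_cancel_left]
  apply Submodule.smul_mem
  apply Submodule.sum_mem
  intro s hs
  rw [Finset.mem_erase, Finset.mem_range] at hs
  rw [← MvPolynomial.smul_eq_C_mul]
  by_cases hsr : s < N - r
  · apply Submodule.smul_mem
    have h4 := LE_of_homog (esymm_homog' (K := K) N s)
    rw [mem_LE] at h4
    rw [mem_LT]
    intro m hm
    exact (h4 m hm).trans_lt hsr
  · have h5 : ¬ r ≤ N - s := by omega
    rw [lag_Pj, if_neg h5, zero_smul]
    exact Submodule.zero_mem _

end Pool.DG
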