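import Pool.Agent.Helper95.DG.Top

/-! # Side (L) for generators whose span has the top forms `e_(N-r)` -/

open MvPolynomial Finset
open scoped BigOperators ENNReal

set_option linter.unusedSectionVars false

namespace Pool.DG

open Pool.SDL

variable {K : Type} [Field K]

theorem finrank_Vl_gs_le (B E : Type) [Fintype B] [Fintype E] (N a : ℕ) (haN : a < N)
    (g : Fin (a + 1) → MvPolynomial (Option (Fin N)) K)
    (hg : ∀ r, r ≤ a → ∃ f ∈ Submodule.span K (Set.range g),
      Top f (rename some (esymm (Fin N) K (N - r))) (N - r)) (l : ℕ) :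
    Module.finrank K (Vl B E (gs K N a) l) ≤
      Module.finrank K (Vl B E g (l + a * Fintype.card B)) := by
  classical
  choose f hf1 hf2 using fun r : Fin (a + 1) => hg r (by have := r.2; omega)
  have hfin := finite_Vl K B E g (l + a * Fintype.card B)
  set ι := {x : (((B × Option (Fin N)) ⊕ E) →₀ ℕ) × (B → Fin (a + 1)) // x.1.degree ≤ l} with hι
  set θ : ι → MvPolynomial ((B × Option (Fin N)) ⊕ E) K := fun x =>
    monomial x.1.1 1 * ∏ b, rename (fun v => Sum.inl (b, v)) (gs K N a (x.1.2 b)) with hθ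
  set Θ : ι → MvPolynomial ((B × Option (Fin N)) ⊕ E) K := fun x =>
    monomial x.1.1 1 * ∏ b, rename (fun v => Sum.inl (b, v))
      (X none ^ ((x.1.2 b : Fin (a + 1)) : ℕ) * f (x.1.2 b)) with hΘ
  have hV : Vl B E (gs K N a) l = Submodule.span K (Set.range θ) := by
    unfold Vl
    congr 1
    ext y
    constructor
    · rintro ⟨μ, k, hμ, rfl⟩
      exact ⟨⟨(μ, k), hμ⟩, rfl⟩
    · rintro ⟨⟨⟨μ, k⟩, hμ⟩, rfl⟩
      exact ⟨μ, k, hμ, rfl⟩
  rw [hV]
  refine finrank_top θ Θ (fun x => x.1.1.degree + ∑ _b : B, N) ?_ _ ?_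
  · intro x
    apply Top.mul
    · apply Top.of_homog
      exact isHomogeneous_monomial _ rfl
    · apply Top.prod
      intro b _
      apply Top.rename
      have h1 : Top (X none ^ ((x.1.2 b : Fin (a + 1)) : ℕ) : MvPolynomial (Option (Fin N)) K)
          (X none ^ ((x.1.2 b : Fin (a + 1)) : ℕ)) ((x.1.2 b : Fin (a + 1)) : ℕ) := by
        apply Top.of_homog
        have := (isHomogeneous_X K (none : Option (Fin N))).pow ((x.1.2 b : Fin (a + 1)) : ℕ)
        simpa using this
      have h2 := h1.mul (hf2 (x.1.2 b))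
      have h3 : ((x.1.2 b : Fin (a + 1)) : ℕ) + (N - ((x.1.2 b : Fin (a + 1)) : ℕ)) = N := by
        have := (x.1.2 b).2
        omega
      rw [h3] at h2
      exact h2
  · rintro ⟨⟨μ, k⟩, hμ⟩
    simp only [hΘ]
    have h1 : (∏ b, rename (fun v => (Sum.inl (b, v) : (B × Option (Fin N)) ⊕ E))
        (X none ^ ((k b : Fin (a + 1)) : ℕ) * f (k b))) =
        monomial (∑ b, Finsupp.single (Sum.inl (b, none) : (B × Option (Fin N)) ⊕ E)
          ((k b : ℕ))) 1 *
        ∏ b, rename (fun v => (Sum.inl (b, v) : (B × Option (Fin N)) ⊕ E)) (f (k b)) := by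
      rw [monomial_sum_one, ← Finset.prod_mul_distrib]
      apply Finset.prod_congr rfl
      intro b _
      rw [map_mul, map_pow, rename_X, X_pow_eq_monomial]
    rw [h1, ← mul_assoc, monomial_mul, one_mul]
    set ν := μ + ∑ b, Finsupp.single (Sum.inl (b, none) : (B × Option (Fin N)) ⊕ E)
          ((k b : ℕ)) with hν
    have hdeg : ν.degree ≤ l + a * Fintype.card B := by
      rw [hν, map_add, map_sum]
      have h2 : ∑ b : B, (Finsupp.single (Sum.inl (b, none) : (B × Option (Fin N)) ⊕ E)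
          ((k b : ℕ))).degree ≤ ∑ _b : B, a := by
        apply Finset.sum_le_sum
        intro b _
        rw [Finsupp.degree_single]
        have := (k b).2
        omega
      have h3 : ∑ _b : B, a = a * Fintype.card B := by
        rw [Finset.sum_const, Finset.card_univ, smul_eq_mul, mul_comm]
      have hμ' : μ.degree ≤ l := hμ
      omega
    have h4 := prod_mem_span K B E g (fun b => f (k b)) (fun b => hf1 (k b))
    have h5 := Submodule.mem_map_of_mem (f := LinearMap.mulLeft K (monomial ν (1 : K))) h4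
    rw [Submodule.map_span, ← Set.range_comp, LinearMap.mulLeft_apply] at h5
    refine (Submodule.span_mono ?_) h5
    rintro _ ⟨kk, rfl⟩
    exact ⟨ν, kk, hdeg, rfl⟩

/-- side (L) for any generators whose span has the top forms `e_(N-r)` -/
theorem sideL_top (B : Type) (E : Type) [Fintype B] [Fintype E]
    (N a : ℕ) (haN : a < N) (g : Fin (a + 1) → MvPolynomial (Option (Fin N)) K)
    (hg : ∀ r, r ≤ a → ∃ f ∈ Submodule.span K (Set.range g),
      Top f (rename some (esymm (Fin N) K (N - r))) (N - r)) (Q : ℝ≥0∞) (hQ : Q < 1) :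
    Q ^ (a * Fintype.card B) * (1 - (1 - Q ^ N) ^ (a + 1)) ^ Fintype.card B ≤
      Q ^ ((N - a) * Fintype.card B) *
        ((1 - Q) ^ (Fintype.card ((B × Option (Fin N)) ⊕ E) + 1) *
          ∑' l, Q ^ l * (Module.finrank K (Vl B E g l) : ℝ≥0∞)) := by
  have h1 := sideL_gs K B E N a haN Q hQ
  have h2 : Q ^ (a * Fintype.card B) *
      ∑' l, Q ^ l * (Module.finrank K (Vl B E (gs K N a) l) : ℝ≥0∞) ≤
      ∑' l, Q ^ l * (Module.finrank K (Vl B E g l) : ℝ≥0∞) := by
    rw [← ENNReal.tsum_mul_left]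
    have h3 : ∀ l, Q ^ (a * Fintype.card B) *
        (Q ^ l * (Module.finrank K (Vl B E (gs K N a) l) : ℝ≥0∞)) ≤
        Q ^ (l + a * Fintype.card B) *
          (Module.finrank K (Vl B E g (l + a * Fintype.card B)) : ℝ≥0∞) := by
      intro l
      rw [← mul_assoc, ← pow_add, add_comm (a * Fintype.card B) l]
      gcongr
      exact finrank_Vl_gs_le B E N a haN g hg l
    refine (ENNReal.tsum_le_tsum h3).trans ?_
    exact ENNReal.tsum_comp_le_tsum_of_injective
      (f := fun l : ℕ => l + a * Fintype.card B) (fun x y h => by simpa using h)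
      (fun l => Q ^ l * (Module.finrank K (Vl B E g l) : ℝ≥0∞))
  calc Q ^ (a * Fintype.card B) * (1 - (1 - Q ^ N) ^ (a + 1)) ^ Fintype.card B
      ≤ Q ^ (a * Fintype.card B) * (Q ^ ((N - a) * Fintype.card B) *
        ((1 - Q) ^ (Fintype.card ((B × Option (Fin N)) ⊕ E) + 1) *
          ∑' l, Q ^ l * (Module.finrank K (Vl B E (gs K N a) l) : ℝ≥0∞))) := by
        gcongr
    _ = Q ^ ((N - a) * Fintype.card B) *
        ((1 - Q) ^ (Fintype.card ((B × Option (Fin N)) ⊕ E) + 1) *
          (Q ^ (a * Fintype.card B) *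
            ∑' l, Q ^ l * (Module.finrank K (Vl B E (gs K N a) l) : ℝ≥0∞))) := by
        ring
    _ ≤ _ := by
        gcongr

end Pool.DG
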