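import Pool.Agent.Helper95.DG.Qk
import Pool.Agent.Helper67.SDet.Red

/-! # Substitution and coefficient extraction -/

open MvPolynomial Finset
open scoped BigOperators ENNReal

set_option linter.unusedSectionVars false

namespace Pool.DG

open Pool.SDL Pool.Agent.SDet

variable {K : Type} [Field K]

/-- the diagonal variables -/
abbrev PD (D N a : ℕ) : Type := Fin D × (Fin N ⊕ Fin (a + 1))

/-- product of the permanents of the blocks `J + diagonal X` -/
noncomputable def FD (K : Type) [Field K] (D N a : ℕ) : MvPolynomial (PD D N a) K :=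
  ∏ j : Fin D, ((Matrix.of fun _ _ => 1) + Matrix.diagonal (fun i => X (j, i)) :
    Matrix (Fin N ⊕ Fin (a + 1)) (Fin N ⊕ Fin (a + 1)) (MvPolynomial (PD D N a) K)).permanent

/-- the substitution with a new variable at the special entries `kk` -/
noncomputable def phi (K : Type) [Field K] {D N a : ℕ} (kk : Fin D → Fin (a + 1)) :
    PD D N a → MvPolynomial ((Fin D × Option (Fin N)) ⊕ Fin D) K := fun p =>
  rename (fun v => Sum.inl (p.1, v)) (vv K N a p.2) +
    if p.2 = Sum.inr (kk p.1) then X (Sum.inr p.1) else 0

/-- the substitution without new variables -/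
noncomputable def phi0 (K : Type) [Field K] {D N a : ℕ} :
    PD D N a → MvPolynomial (Fin D × Option (Fin N)) K := fun p =>
  rename (fun v => (p.1, v)) (vv K N a p.2)

theorem vv_totalDegree (N a : ℕ) (i) : (vv K N a i).totalDegree ≤ 1 := by
  rcases i with j | k
  · exact (totalDegree_X (R := K) _).le
  · exact (totalDegree_C _).le.trans (Nat.zero_le _)

theorem phi_totalDegree {D N a : ℕ} (kk : Fin D → Fin (a + 1)) (p : PD D N a) :
    (phi K kk p).totalDegree ≤ 1 := by
  unfold phi
  refine (totalDegree_add _ _).trans (max_le ?_ ?_)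
  · exact (totalDegree_rename_le _ _).trans (vv_totalDegree _ _ _)
  · split_ifs
    · exact (totalDegree_X (R := K) _).le
    · simp

theorem phi0_totalDegree {D N a : ℕ} (p : PD D N a) : (phi0 K p).totalDegree ≤ 1 :=
  (totalDegree_rename_le _ _).trans (vv_totalDegree _ _ _)

theorem eps_phi {D N a : ℕ} (kk : Fin D → Fin (a + 1)) (p : PD D N a) :
    eps K (Fin D × Option (Fin N)) D (phi K kk p) = phi0 K p := by
  unfold phi phi0
  rw [map_add]
  have h1 : rename (fun v => (Sum.inl (p.1, v) : (Fin D × Option (Fin N)) ⊕ Fin D))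
      (vv K N a p.2) = rename Sum.inl (rename (fun v => (p.1, v)) (vv K N a p.2)) := by
    rw [rename_rename]; rfl
  rw [h1, eps_rename]
  split_ifs
  · simp [eps]
  · simp

/-- the coefficient extraction -/
noncomputable def HD (K : Type) [Field K] {D N a : ℕ} (kk : Fin D → Fin (a + 1)) :
    MvPolynomial (PD D N a) K →ₗ[K] MvPolynomial (Fin D × Option (Fin N)) K :=
  (eps K (Fin D × Option (Fin N)) D).toLinearMap ∘ₗ iter (List.finRange D) ∘ₗ
    (aeval (phi K kk)).toLinearMap

/-- determinants of affine matrices go to the span of the minors -/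
theorem HD_det {D N a M : ℕ} (kk : Fin D → Fin (a + 1))
    (A : Matrix (Fin M) (Fin M) (MvPolynomial (PD D N a) K))
    (hA : ∀ i j, (A i j).totalDegree ≤ 1) :
    HD K kk A.det ∈ detSpan (A.map (aeval (phi0 K))) (M - D) := by
  have hcomp : ∀ p : MvPolynomial (PD D N a) K,
      eps K (Fin D × Option (Fin N)) D (aeval (phi K kk) p) =
      aeval (phi0 K) p := by
    intro p
    have h1 : (eps K (Fin D × Option (Fin N)) D).comp (aeval (phi K kk)) =
        (aeval (phi0 K) : MvPolynomial (PD D N a) K →ₐ[K] _) := by
      refine MvPolynomial.algHom_ext fun q => ?_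
      rw [AlgHom.comp_apply, aeval_X, aeval_X, eps_phi]
    exact congrArg (fun φ => φ p) h1
  have h6 : iter (List.finRange D) (aeval (phi K kk) A.det) ∈
      Mn K (A.map (aeval (phi K kk))) (M - D) := by
    have h7 := iter_mem (List.finRange D) (A.map (aeval (phi K kk))) (fun a b =>
      (totalDegree_aeval_le' (phi K kk) (fun q => phi_totalDegree kk q) _).trans
        (hA a b)) (det_mem_Mn (K := K) (A.map (aeval (phi K kk))))
    rw [List.length_finRange] at h7
    rw [AlgHom.map_det]
    exact h7
  have h8 := map_Mn (eps K (Fin D × Option (Fin N)) D) _ h6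
  have h9 : (A.map (aeval (phi K kk))).map (eps K (Fin D × Option (Fin N)) D) =
      A.map (aeval (phi0 K)) := by
    ext1 a b
    simp only [Matrix.map_apply]
    rw [hcomp]
  rw [h9] at h8
  exact h8

/-- iterated derivatives of a product of affine factors -/
theorem iter_affine {τ : Type} {D : ℕ} (l : List (Fin D)) (hl : l.Nodup)
    (A B : Fin D → MvPolynomial τ K) (G : MvPolynomial (τ ⊕ Fin D) K)
    (hG : ∀ b ∈ l, pderiv (Sum.inr b) G = 0) :
    iter l ((l.map fun b => rename Sum.inl (A b) + X (Sum.inr b) * rename Sum.inl (B b)).prod * G) =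
      (l.map fun b => rename Sum.inl (B b)).prod * G := by
  induction l generalizing G with
  | nil => simp [iter_nil]
  | cons b l ih =>
    rw [List.nodup_cons] at hl
    rw [iter_cons, List.map_cons, List.prod_cons, List.map_cons, List.prod_cons]
    rw [mul_comm (rename Sum.inl (A b) + X (Sum.inr b) * rename Sum.inl (B b)), mul_assoc,
      ih hl.2 ((rename Sum.inl (A b) + X (Sum.inr b) * rename Sum.inl (B b)) * G)]
    · have h1 : pderiv (Sum.inr b) (l.map fun b => (rename Sum.inl (B b) :
          MvPolynomial (τ ⊕ Fin D) K)).prod = 0 := by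
        have h2 : (l.map fun b => (rename Sum.inl (B b) : MvPolynomial (τ ⊕ Fin D) K)).prod =
            rename Sum.inl (l.map B).prod := by
          rw [map_list_prod, List.map_map]
          rfl
        rw [h2, pderiv_rename_inl]
      rw [Derivation.leibniz, h1, smul_zero, add_zero, Derivation.leibniz,
        hG b List.mem_cons_self, smul_zero, zero_add, map_add, pderiv_rename_inl,
        Derivation.leibniz, pderiv_rename_inl, pderiv_X_self]
      simp only [smul_eq_mul]
      ring
    · intro b' hb'
      have hne : b' ≠ b := fun h => hl.1 (h ▸ hb')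
      rw [Derivation.leibniz, hG b' (List.mem_cons_of_mem _ hb'), map_add, pderiv_rename_inl,
        Derivation.leibniz, pderiv_rename_inl,
        pderiv_X_of_ne (fun h => hne (Sum.inr.inj h).symm)]
      simp

theorem lag_rename {σ τ : Type} (f : σ → τ) {ι : Type} (s : Finset ι) (v : ι → MvPolynomial σ K) :
    lag _ (∏ i ∈ s, (Polynomial.X + Polynomial.C (rename f (v i)))) =
      rename f (lag _ (∏ i ∈ s, (Polynomial.X + Polynomial.C (v i)))) := by
  have h := lag_map ((rename f : MvPolynomial σ K →ₐ[K] MvPolynomial τ K) :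
    MvPolynomial σ K →+* MvPolynomial τ K) (∏ i ∈ s, (Polynomial.X + Polynomial.C (v i)))
  rw [Polynomial.map_prod] at h
  simp only [Polynomial.map_add, Polynomial.map_X, Polynomial.map_C] at h
  exact h

/-- the product of the block permanents goes to the products of the block polynomials -/
theorem HD_FD {D N a : ℕ} (kk : Fin D → Fin (a + 1)) :
    HD K kk (FD K D N a) = ∏ j, rename (fun v => (j, v)) (qk K N a (kk j)) := by
  classical
  have h1 : aeval (phi K kk) (FD K D N a) = ∏ j : Fin D,
      (rename Sum.inl (rename (fun v => (j, v)) (lag _ (∏ i, (Polynomial.X +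
        Polynomial.C (vv K N a i))))) + X (Sum.inr j) *
        rename Sum.inl (rename (fun v => (j, v)) (qk K N a (kk j))) :
        MvPolynomial ((Fin D × Option (Fin N)) ⊕ Fin D) K) := by
    rw [FD, map_prod]
    apply Finset.prod_congr rfl
    intro j _
    have h2 : aeval (phi K kk) (((Matrix.of fun _ _ => 1) + Matrix.diagonal (fun i => X (j, i)) :
        Matrix (Fin N ⊕ Fin (a + 1)) (Fin N ⊕ Fin (a + 1)) (MvPolynomial (PD D N a) K)).permanent) =
        ((Matrix.of fun _ _ => 1) + Matrix.diagonal (fun i =>
          rename (fun v => Sum.inl (j, v)) (vv K N a i) + if i = Sum.inr (kk j) then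
            X (Sum.inr j) else 0) :
        Matrix (Fin N ⊕ Fin (a + 1)) (Fin N ⊕ Fin (a + 1))
          (MvPolynomial ((Fin D × Option (Fin N)) ⊕ Fin D) K)).permanent := by
      rw [Matrix.permanent, map_sum, Matrix.permanent]
      apply Finset.sum_congr rfl
      intro σ _
      rw [map_prod]
      apply Finset.prod_congr rfl
      intro i _
      rw [Matrix.add_apply, Matrix.add_apply, map_add, Matrix.of_apply, Matrix.of_apply, map_one,
        Matrix.diagonal_apply, Matrix.diagonal_apply]
      congr 1
      by_cases h : σ i = i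
      · rw [if_pos h, if_pos h, aeval_X]
        rfl
      · rw [if_neg h, if_neg h, map_zero]
    have e : ((Sum.inl : Fin D × Option (Fin N) → (Fin D × Option (Fin N)) ⊕ Fin D) ∘
        (fun v => (j, v))) = fun v => Sum.inl (j, v) := rfl
    rw [h2, perm_J_update, rename_rename, rename_rename, e, lag_rename, qk, lag_rename]
  rw [HD, LinearMap.comp_apply, LinearMap.comp_apply, AlgHom.toLinearMap_apply,
    AlgHom.toLinearMap_apply, h1, Fin.prod_univ_def]
  have h3 := iter_affine (K := K) (List.finRange D) (List.nodup_finRange D)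
    (fun j => rename (fun v => (j, v)) (lag _ (∏ i, (Polynomial.X +
        Polynomial.C (vv K N a i))))) (fun j => rename (fun v => (j, v)) (qk K N a (kk j))) 1
    (fun b _ => by simp)
  rw [mul_one, mul_one] at h3
  rw [h3, map_list_prod, List.map_map, Fin.prod_univ_def]
  congr 2
  funext j
  exact eps_rename _

end Pool.DG
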