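import Pool.Agent.Helper55.SD.RO4

/-! # Top forms and dimensions -/

open MvPolynomial Finset
open scoped BigOperators ENNReal

set_option linter.unusedSectionVars false

namespace Pool.DG

variable {K : Type} [Field K] {σ τ : Type}

/-- all monomials have degree `< d` -/
noncomputable def LT (K : Type) [Field K] (σ : Type) (d : ℕ) : Submodule K (MvPolynomial σ K) :=
  restrictSupport K {m : σ →₀ ℕ | m.degree < d}

/-- all monomials have degree `≤ d` -/
noncomputable def LE (K : Type) [Field K] (σ : Type) (d : ℕ) : Submodule K (MvPolynomial σ K) :=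
  restrictSupport K {m : σ →₀ ℕ | m.degree ≤ d}

theorem mem_LT {f : MvPolynomial σ K} {d : ℕ} : f ∈ LT K σ d ↔ ∀ m ∈ f.support, m.degree < d := by
  unfold LT
  rw [mem_restrictSupport_iff]
  rfl

theorem mem_LE {f : MvPolynomial σ K} {d : ℕ} : f ∈ LE K σ d ↔ ∀ m ∈ f.support, m.degree ≤ d := by
  unfold LE
  rw [mem_restrictSupport_iff]
  rfl

theorem LT_le_LE (d : ℕ) : LT K σ d ≤ LE K σ d := by
  intro f hf
  rw [mem_LT] at hf
  rw [mem_LE]
  intro m hm
  exact (hf m hm).le

theorem LT_mul_LE {f g : MvPolynomial σ K} {d e : ℕ} (hf : f ∈ LT K σ d) (hg : g ∈ LE K σ e) :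
    f * g ∈ LT K σ (d + e) := by
  classical
  rw [mem_LT] at hf ⊢
  rw [mem_LE] at hg
  intro m hm
  obtain ⟨a, ha, b, hb, rfl⟩ := Finset.mem_add.1 (support_mul f g hm)
  rw [map_add]
  have := hf a ha
  have := hg b hb
  omega

theorem LE_mul_LT {f g : MvPolynomial σ K} {d e : ℕ} (hf : f ∈ LE K σ d) (hg : g ∈ LT K σ e) :
    f * g ∈ LT K σ (d + e) := by
  rw [mul_comm, add_comm]
  exact LT_mul_LE hg hf

theorem LE_of_homog {f : MvPolynomial σ K} {d : ℕ} (hf : f.IsHomogeneous d) : f ∈ LE K σ d := by
  rw [mem_LE]
  intro m hm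
  have h := hf (mem_support_iff.1 hm)
  have e : Finsupp.weight (1 : σ → ℕ) m = m.degree := by
    rw [Finsupp.degree_eq_weight_one]; rfl
  rw [← h, e]

/-- `θ` is the form of degree `d` of `f`, and there is nothing above -/
structure Top (f θ : MvPolynomial σ K) (d : ℕ) : Prop where
  hom : θ.IsHomogeneous d
  low : f - θ ∈ LT K σ d

theorem Top.mem_LE {f θ : MvPolynomial σ K} {d : ℕ} (h : Top f θ d) : f ∈ LE K σ d := by
  have h1 := LT_le_LE d h.low
  have h2 := LE_of_homog h.hom
  have := Submodule.add_mem _ h1 h2
  simpa using this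

theorem Top.of_homog {f : MvPolynomial σ K} {d : ℕ} (h : f.IsHomogeneous d) : Top f f d :=
  ⟨h, by simp⟩

theorem Top.mul {f θ g η : MvPolynomial σ K} {d e : ℕ} (h : Top f θ d) (h' : Top g η e) :
    Top (f * g) (θ * η) (d + e) := by
  refine ⟨h.hom.mul h'.hom, ?_⟩
  have e1 : f * g - θ * η = (f - θ) * g + θ * (g - η) := by ring
  rw [e1]
  exact Submodule.add_mem _ (LT_mul_LE h.low h'.mem_LE) (LE_mul_LT (LE_of_homog h.hom) h'.low)

theorem Top.prod {B : Type} (s : Finset B) (f θ : B → MvPolynomial σ K) (d : B → ℕ)
    (h : ∀ b ∈ s, Top (f b) (θ b) (d b)) :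
    Top (∏ b ∈ s, f b) (∏ b ∈ s, θ b) (∑ b ∈ s, d b) := by
  classical
  induction s using Finset.induction_on with
  | empty =>
    simp only [Finset.prod_empty, Finset.sum_empty]
    exact Top.of_homog (isHomogeneous_one σ K)
  | insert b s hb ih =>
    rw [Finset.prod_insert hb, Finset.prod_insert hb, Finset.sum_insert hb]
    exact (h b (Finset.mem_insert_self b s)).mul
      (ih fun b' hb' => h b' (Finset.mem_insert_of_mem hb'))

theorem LT_rename {f : MvPolynomial σ K} {d : ℕ} (φ : σ → τ) (hf : f ∈ LT K σ d) :
    rename φ f ∈ LT K τ d := by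
  classical
  rw [mem_LT] at hf ⊢
  intro m hm
  obtain ⟨m', rfl, hm'⟩ := coeff_rename_ne_zero φ f m (mem_support_iff.1 hm)
  rw [Finsupp.degree_mapDomain]
  exact hf m' (mem_support_iff.2 hm')

theorem Top.rename {f θ : MvPolynomial σ K} {d : ℕ} (φ : σ → τ) (h : Top f θ d) :
    Top (MvPolynomial.rename φ f) (MvPolynomial.rename φ θ) d := by
  refine ⟨h.hom.rename_isHomogeneous, ?_⟩
  rw [← map_sub]
  exact LT_rename φ h.low

/-- the dimension of a span is at least the dimension of the span of the top forms -/
theorem finrank_top {ι : Type} (θ Θ : ι → MvPolynomial σ K) (d : ι → ℕ)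
    (h : ∀ i, Top (Θ i) (θ i) (d i)) (T : Submodule K (MvPolynomial σ K)) [Module.Finite K T]
    (hT : ∀ i, Θ i ∈ T) :
    Module.finrank K (Submodule.span K (Set.range θ)) ≤ Module.finrank K T := by
  classical
  obtain ⟨b, hb1, hb2, hb3⟩ := exists_linearIndependent K (Set.range θ)
  choose ix hix using fun x : b => hb1 x.2
  have key : LinearIndependent K (fun x : b => Θ (ix x)) := by
    rw [linearIndependent_iff']
    intro s c hc
    by_contra hcon
    push Not at hcon
    obtain ⟨x0, hx0s, hx0⟩ := hcon
    set s' := s.filter (fun x => c x ≠ 0) with hs'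
    have hne : s'.Nonempty := ⟨x0, Finset.mem_filter.2 ⟨hx0s, hx0⟩⟩
    obtain ⟨x1, hx1, hmax⟩ := Finset.exists_max_image s' (fun x => d (ix x)) hne
    set D := d (ix x1) with hD
    have hsum : ∑ x ∈ s'.filter (fun x => d (ix x) = D), c x • (x : MvPolynomial σ K) = 0 := by
      ext m
      rw [coeff_sum, coeff_zero]
      by_cases hm : m.degree = D
      · have h1 : coeff m (∑ x ∈ s, c x • Θ (ix x)) = 0 := by rw [hc, coeff_zero]
        rw [coeff_sum] at h1
        rw [← h1]
        rw [Finset.sum_filter, Finset.sum_filter]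
        apply Finset.sum_congr rfl
        intro x hx
        by_cases hcx : c x = 0
        · simp [hcx]
        · rw [if_pos hcx]
          have hxs' : x ∈ s' := Finset.mem_filter.2 ⟨hx, hcx⟩
          have hle := hmax x hxs'
          have hθ : θ (ix x) = x := hix x
          by_cases hd : d (ix x) = D
          · rw [if_pos hd, coeff_smul, coeff_smul]
            congr 1
            have h2 := (h (ix x)).low
            rw [mem_LT] at h2
            have h3 : coeff m (Θ (ix x) - θ (ix x)) = 0 := by
              by_contra h4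
              have := h2 m (mem_support_iff.2 h4)
              omega
            rw [coeff_sub, sub_eq_zero] at h3
            rw [h3, hθ]
          · rw [if_neg hd, coeff_smul]
            have h2 := (h (ix x)).mem_LE
            rw [mem_LE] at h2
            have h3 : coeff m (Θ (ix x)) = 0 := by
              by_contra h4
              have := h2 m (mem_support_iff.2 h4)
              have hle' : d (ix x) ≤ D := hle
              omega
            rw [h3, smul_zero]
      · apply Finset.sum_eq_zero
        intro x hx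
        rw [Finset.mem_filter] at hx
        have h2 := (h (ix x)).hom
        rw [hix x] at h2
        rw [coeff_smul]
        have h3 : coeff m (x : MvPolynomial σ K) = 0 := by
          by_contra h4
          have h5 := h2 h4
          have e : Finsupp.weight (1 : σ → ℕ) m = m.degree := by
            rw [Finsupp.degree_eq_weight_one]; rfl
          rw [e] at h5
          exact hm (h5.trans hx.2)
        rw [h3, smul_zero]
    rw [linearIndependent_iff'] at hb3
    have h6 := hb3 (s'.filter (fun x => d (ix x) = D)) c hsum x1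
      (Finset.mem_filter.2 ⟨hx1, rfl⟩)
    exact (Finset.mem_filter.1 hx1).2 h6
  have key2 : LinearIndependent K (fun x : b => (⟨Θ (ix x), hT (ix x)⟩ : T)) := by
    apply LinearIndependent.of_comp T.subtype
    exact key
  have hfin : Finite b := key2.finite
  have : Fintype b := Fintype.ofFinite b
  have h7 := key2.fintype_card_le_finrank
  rw [← hb2]
  have h8 := finrank_span_eq_card hb3
  rw [Subtype.range_coe_subtype, Set.ofPred_mem_eq] at h8
  rw [h8]
  exact h7

end Pool.DG
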